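import Pool.Agent.helper44.EX.Spec

set_option autoImplicit false

open Complex Metric Set Filter Topology MeasureTheory Pool.Agent.helper98.ILF

noncomputable section

namespace EX

theorem REC_cont (n : ℕ) (c : ℂ) (s : ℕ) : Continuous ((ff n c)^[s]) := by
  apply Continuous.iterate
  unfold ff
  fun_prop

/-- a uniform modulus of continuity for the first iterates. -/
theorem REC_unif (n : ℕ) (c : ℂ) (N : ℕ) (ε : ℝ) (hε : 0 < ε) :
    ∃ η : ℝ, 0 < η ∧ η ≤ 1 ∧ ∀ a b : ℂ, ‖a‖ ≤ 2 + ‖c‖ → ‖a - b‖ < η → ∀ s ≤ N,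
      ‖(ff n c)^[s] a - (ff n c)^[s] b‖ < ε := by
  have hK : IsCompact (closedBall (0 : ℂ) (3 + ‖c‖)) := isCompact_closedBall _ _
  have hcont : Continuous (fun z : ℂ => fun s : Fin (N + 1) => (ff n c)^[(s : ℕ)] z) :=
    continuous_pi fun s => REC_cont n c s
  have hu := hK.uniformContinuousOn_of_continuous hcont.continuousOn
  rw [Metric.uniformContinuousOn_iff] at hu
  obtain ⟨η, hη, h⟩ := hu ε hε
  refine ⟨min η 1, lt_min hη one_pos, min_le_right _ _, ?_⟩
  intro a b ha hab s hs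
  have hab1 : ‖a - b‖ < η := lt_of_lt_of_le hab (min_le_left _ _)
  have hab2 : ‖a - b‖ < 1 := lt_of_lt_of_le hab (min_le_right _ _)
  have hb : ‖b‖ ≤ 3 + ‖c‖ := by
    have h1 : ‖b‖ ≤ ‖a‖ + ‖a - b‖ := by
      have h2 := norm_sub_le a (a - b)
      rwa [sub_sub_cancel] at h2
    linarith
  have h3 := h a (by rw [mem_closedBall, dist_zero_right]; linarith) b
    (by rw [mem_closedBall, dist_zero_right]; exact hb) (by rw [dist_eq_norm]; exact hab1)
  have h4 := lt_of_le_of_lt (dist_le_pi_dist _ _ (⟨s, by omega⟩ : Fin (N + 1))) h3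
  rw [dist_eq_norm] at h4
  exact h4

/-- **REC**. -/
theorem REC (hL : LYU_stmt) : REC_stmt := by
  intro n c hn hV
  have h1 : ∀ᵐ x : ℂ, ∀ m : ℕ, x ∉ {z | z ∈ frontier (filled n c) ∧
      ∀ k j : ℕ, 3 * (1 / ((m : ℝ) + 1)) ≤ ‖(ff n c)^[k] z - (ff n c)^[j] c‖} := by
    rw [ae_all_iff]
    intro m
    exact measure_eq_zero_iff_ae_notMem.1 (hL n c (1 / ((m : ℝ) + 1)) hn (by positivity))
  filter_upwards [h1] with x hx hxJ ε hε
  have hxf : x ∈ frontier (filled n c) := juliaSet_subset hn c hxJ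
  have hxfill : x ∈ filled n c := (isClosed_filled n c).frontier_subset hxf
  obtain ⟨V, N, hVs, hVis⟩ := hV (ε / 2) (by positivity)
  obtain ⟨η, hη, hη1, hu⟩ := REC_unif n c N (ε / 2) (by positivity)
  obtain ⟨m, hm⟩ := exists_nat_one_div_lt (show (0 : ℝ) < η / 3 by positivity)
  have h2 := hx m
  rw [not_and] at h2
  have h3 := h2 hxf
  push Not at h3
  obtain ⟨k, j, hkj⟩ := h3
  have hkj' : ‖(ff n c)^[k] x - (ff n c)^[j] c‖ < η := by linarith
  obtain ⟨s, hs, hsV⟩ := hVis (j + 1)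
  rw [Finset.mem_Icc] at hs
  have h4 := hu ((ff n c)^[k] x) ((ff n c)^[j] c) (hxfill k) hkj' s hs.2
  have h5 : (ff n c)^[j + 1 + s] 0 = (ff n c)^[s] ((ff n c)^[j] c) := by
    rw [show j + 1 + s = s + (j + 1) by ring, Function.iterate_add_apply, Function.iterate_succ_apply]
    congr 2
    unfold ff
    rw [zero_pow (by omega), zero_add]
  rw [h5] at hsV
  have h6 := hVs hsV
  rw [mem_ball, dist_zero_right] at h6
  refine ⟨s + k, ?_⟩
  rw [Function.iterate_add_apply]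
  have h7 : ‖(ff n c)^[s] ((ff n c)^[k] x)‖ ≤
      ‖(ff n c)^[s] ((ff n c)^[k] x) - (ff n c)^[s] ((ff n c)^[j] c)‖ +
        ‖(ff n c)^[s] ((ff n c)^[j] c)‖ := by
    have h8 := norm_add_le ((ff n c)^[s] ((ff n c)^[k] x) - (ff n c)^[s] ((ff n c)^[j] c))
      ((ff n c)^[s] ((ff n c)^[j] c))
    rwa [sub_add_cancel] at h8
  linarith

end EX
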